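import Mathlib

/-!
# Étale motivic cohomology in the top weight and in negative weights
-/

set_option autoImplicit false

namespace Pool.Agent.X264.MW

universe u

/-- Proper regular connected arithmetic schemes `X`, their dimension, the groups
`H X n i = H^i(X_et, ℤ^c(n))`, and the projective spaces `P X m = X × ℙ^m`. -/
structure Theory where
  Sch : Type u
  dim : Sch → ℕ
  H : Sch → ℤ → ℤ → Type u
  [acg : ∀ X n i, AddCommGroup (H X n i)]
  P : Sch → ℕ → Sch

attribute [instance] Theory.acg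

namespace Theory

variable (T : Theory.{u})

/-- `H^i(X_et, ℤ^c(n))` is finitely generated. -/
def IsFG (X : T.Sch) (n i : ℤ) : Prop := AddGroup.FG (T.H X n i)

/-- `H^i(X_et, ℤ(d)) = H^(i - 2 d)(X_et, ℤ^c(0))`, `d = dim X`, is finitely generated. -/
def IsTopFG (X : T.Sch) (i : ℤ) : Prop := T.IsFG X 0 (i - 2 * T.dim X)

/-- The projective bundle formula: `H^(i + 2 j)(X_et, ℤ^c(-j))` is a direct summand of
`H^i((X × ℙ^m)_et, ℤ^c(0))` for `j ≤ m`; in particular a quotient. -/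
def HasProjectiveSpaces : Prop :=
  (∀ X m, T.dim (T.P X m) = T.dim X + m) ∧
    ∀ X (m j : ℕ) (i : ℤ), j ≤ m →
      ∃ r : T.H (T.P X m) 0 i → T.H X (-j) (i + 2 * j),
        (∀ a b, r (a + b) = r a + r b) ∧ Function.Surjective r

variable {T}

lemma fg_of_projective (hT : T.HasProjectiveSpaces) {X : T.Sch} {m j : ℕ} {i : ℤ} (hj : j ≤ m)
    (h : T.IsFG (T.P X m) 0 i) : T.IsFG X (-j) (i + 2 * j) := by
  obtain ⟨r, hr, hs⟩ := hT.2 X m j i hj
  unfold IsFG at h ⊢
  let f : T.H (T.P X m) 0 i →+ T.H X (-j) (i + 2 * j) := AddMonoidHom.mk' r hr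
  have : AddGroup.FG (T.H (T.P X m) 0 i) := h
  exact AddGroup.fg_of_surjective (f := f) hs

/-- the top weight in degrees `0 ≤ i ≤ 2 d + c` gives all weights `n ≤ 0` in degrees `≤ -2 n + c` -/
theorem all_weights (hT : T.HasProjectiveSpaces) (c : ℕ)
    (h : ∀ X (i : ℤ), 0 ≤ i → i ≤ 2 * T.dim X + c → T.IsTopFG X i) (X : T.Sch) (n i : ℤ)
    (hn : n ≤ 0) (hi : i ≤ -2 * n + c) : T.IsFG X n i := by
  obtain ⟨j, hj⟩ : ∃ j : ℕ, n = -j := ⟨n.natAbs, by omega⟩
  subst hj
  -- a large projective space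
  let m : ℕ := j + i.natAbs
  have h1 := h (T.P X m) (i - 2 * j + 2 * T.dim (T.P X m)) (by
    rw [hT.1]
    push_cast
    omega) (by omega)
  unfold IsTopFG at h1
  have h2 : i - 2 * (j : ℤ) + 2 * T.dim (T.P X m) - 2 * T.dim (T.P X m) = i - 2 * j := by ring
  rw [h2] at h1
  have h3 := fg_of_projective hT (X := X) (Nat.le_add_right j i.natAbs) h1
  have h4 : i - 2 * (j : ℤ) + 2 * j = i := by ring
  rw [h4] at h3
  exact h3

/-- equivalences for the top weight -/
theorem main (hT : T.HasProjectiveSpaces) (c : ℕ) :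
    (∀ X (i : ℤ), 0 ≤ i → i ≤ 2 * T.dim X + c → T.IsTopFG X i) ↔
      ∀ X (n i : ℤ), n ≤ 0 → i ≤ -2 * n + c → T.IsFG X n i :=
  ⟨fun h X n i hn hi => all_weights hT c h X n i hn hi,
    fun h X i _ hi => h X 0 _ le_rfl (by omega)⟩

theorem main' (hT : T.HasProjectiveSpaces) (c : ℕ) :
    (∀ X (i : ℤ), i ≤ 2 * T.dim X + c → T.IsTopFG X i) ↔
      ∀ X (n i : ℤ), n ≤ 0 → i ≤ -2 * n + c → T.IsFG X n i :=
  ⟨fun h X n i hn hi => all_weights hT c (fun X i _ hi => h X i hi) X n i hn hi,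
    fun h X i hi => h X 0 _ le_rfl (by omega)⟩

end Theory

end Pool.Agent.X264.MW
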